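import Mathlib

/-!
# A Golod Artinian quotient of height three and Cohen-Macaulay type two
-/

namespace Pool.Agent.Results.MP_5d828d_al.TypeBelowHeight

open MvPolynomial CategoryTheory Abelian
open scoped ModuleCat.Algebra

universe u

section koszul

variable (k : Type u) {R : Type u} [Field k] [CommRing R] [Algebra k R]
  {M : Type u} [AddCommGroup M] [Module R M] (φ : M →ₗ[R] R)

/-- The differential of the Koszul complex of the linear form `φ : M → R`, whose underlying graded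
algebra is the exterior algebra of `M`: the contraction with `φ`, that is, the antiderivation with
`∂ e = φ e` for `e ∈ M`. -/
noncomputable def kosD : ExteriorAlgebra R M →ₗ[R] ExteriorAlgebra R M :=
  CliffordAlgebra.contractLeft φ

/-- The cycles of degree at least one. -/
noncomputable def cyc : Submodule R (ExteriorAlgebra R M) :=
  ⨆ i ≥ 1, (⋀[R]^i M) ⊓ LinearMap.ker (kosD φ)

/-- The boundaries of degree at least one. -/
noncomputable def bdr : Submodule R (ExteriorAlgebra R M) :=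
  ⨆ i ≥ 1, (⋀[R]^(i + 1) M).map (kosD φ)

/-- `μ` is a trivial Massey operation: the `μ [h]`, for `h` in the index set `L`, are homogeneous
cycles of degree `d h ≥ 1` whose classes form a `k`-basis of the homology `H_{≥1}`, and
`∂ μ(h₁,…,h_p) = ∑_{0<j<p} (-1)^{|μ(h₁,…,h_j)|+1} μ(h₁,…,h_j) μ(h_{j+1},…,h_p)`. -/
structure IsTrivialMassey {L : Type u} (d : L → ℕ) (μ : List L → ExteriorAlgebra R M) :
    Prop where
  one_le : ∀ h, 1 ≤ d h
  homogeneous : ∀ l : List L, l ≠ [] → μ l ∈ ⋀[R]^((l.map d).sum + l.length - 1) M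
  basis : ∀ z ∈ cyc φ, ∃! c : L →₀ k, z - c.sum (fun h a => algebraMap k R a • μ [h]) ∈ bdr φ
  massey : ∀ l : List L, l ≠ [] → kosD φ (μ l) =
    ∑ j ∈ Finset.Ioo 0 l.length, -CliffordAlgebra.involute (μ (l.take j)) * μ (l.drop j)

end koszul

section ring

variable (k : Type u) {R : Type u} [Field k] [CommRing R] [Algebra k R] {n : ℕ} (x : Fin n → R)

/-- `R` is Golod: the Koszul complex `K^R` on `x_1,…,x_n` has a trivial Massey operation. -/
def IsGolod : Prop := ∃ (L : Type u) (d : L → ℕ) (μ : List L → ExteriorAlgebra R (Fin n → R)),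
  IsTrivialMassey k (∑ i, x i • (LinearMap.proj i : (Fin n → R) →ₗ[R] R)) d μ

/-- `Ext^i_R(k, R)`, where `k = R/m` and `m` is generated by the `x_i`. -/
abbrev ExtK (i : ℕ) : Type u :=
  Ext (ModuleCat.of R (R ⧸ Ideal.span (Set.range x))) (ModuleCat.of R R) i

/-- `depth R`: the least `i` with `Ext^i_R(k, R) ≠ 0`. -/
noncomputable def depth : ℕ := sInf {i | Nontrivial (ExtK x i)}

/-- The Cohen-Macaulay type `dim_k Ext^{depth R}_R(k, R)`. -/
noncomputable def cmType : ℕ := Module.finrank k (ExtK x (depth x))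

/-- `R` is Cohen-Macaulay: its Krull dimension is its depth. -/
def IsCM : Prop := ringKrullDim R = depth x

end ring

variable {k : Type u} [Field k] {n : ℕ} (I : Ideal (MvPolynomial (Fin n) k))

/-- The images of the variables in `R = S/I`, where `S = k[x_1,…,x_n]`. -/
noncomputable def var : Fin n → MvPolynomial (Fin n) k ⧸ I :=
  fun i => Ideal.Quotient.mk I (X i)

/-- `I` is homogeneous for the standard grading of `S = k[x_1,…,x_n]`. -/
def IsHomog : Prop := ∀ f ∈ I, ∀ d : ℕ, homogeneousComponent d f ∈ I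


/-! ### The ideal -/

section ideal

variable (k : Type u) [Field k]

/-- exponent vectors -/
noncomputable def ex (a b c : ℕ) : Fin 3 →₀ ℕ :=
  Finsupp.single 0 a + Finsupp.single 1 b + Finsupp.single 2 c

theorem ex0 (a b c : ℕ) : ex a b c 0 = a := by simp [ex]
theorem ex1 (a b c : ℕ) : ex a b c 1 = b := by simp [ex]
theorem ex2 (a b c : ℕ) : ex a b c 2 = c := by simp [ex]

theorem eq_ex (m : Fin 3 →₀ ℕ) : m = ex (m 0) (m 1) (m 2) := by
  ext i
  fin_cases i
  · exact (ex0 _ _ _).symm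
  · exact (ex1 _ _ _).symm
  · exact (ex2 _ _ _).symm

theorem degree_ex (a b c : ℕ) : (ex a b c).degree = a + b + c := by
  simp [ex]

theorem ex_inj {a b c a' b' c' : ℕ} (h : ex a b c = ex a' b' c') : a = a' ∧ b = b' ∧ c = c' := by
  refine ⟨?_, ?_, ?_⟩
  · rw [← ex0 a b c, h, ex0]
  · rw [← ex1 a b c, h, ex1]
  · rw [← ex2 a b c, h, ex2]

variable {k}

theorem cX0 (a b c : ℕ) (p : MvPolynomial (Fin 3) k) :
    coeff (ex (a + 1) b c) (X 0 * p) = coeff (ex a b c) p := by
  have : ex (a + 1) b c = Finsupp.single 0 1 + ex a b c := by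
    simp only [ex, Finsupp.single_add]; abel
  rw [this, coeff_X_mul]

theorem cX1 (a b c : ℕ) (p : MvPolynomial (Fin 3) k) :
    coeff (ex a (b + 1) c) (X 1 * p) = coeff (ex a b c) p := by
  have : ex a (b + 1) c = Finsupp.single 1 1 + ex a b c := by
    simp only [ex, Finsupp.single_add]; abel
  rw [this, coeff_X_mul]

theorem cX2 (a b c : ℕ) (p : MvPolynomial (Fin 3) k) :
    coeff (ex a b (c + 1)) (X 2 * p) = coeff (ex a b c) p := by
  have : ex a b (c + 1) = Finsupp.single 2 1 + ex a b c := by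
    simp only [ex, Finsupp.single_add]; abel
  rw [this, coeff_X_mul]

theorem cX0' (b c : ℕ) (p : MvPolynomial (Fin 3) k) : coeff (ex 0 b c) (X 0 * p) = 0 := by
  rw [coeff_X_mul', if_neg]
  simp [ex0]

theorem cX1' (a c : ℕ) (p : MvPolynomial (Fin 3) k) : coeff (ex a 0 c) (X 1 * p) = 0 := by
  rw [coeff_X_mul', if_neg]
  simp [ex1]

theorem cX2' (a b : ℕ) (p : MvPolynomial (Fin 3) k) : coeff (ex a b 0) (X 2 * p) = 0 := by
  rw [coeff_X_mul', if_neg]
  simp [ex2]

theorem coeff_mul_deg3 {p : MvPolynomial (Fin 3) k} (hp : p ∈ idealOfVars (Fin 3) k ^ 3)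
    (q : MvPolynomial (Fin 3) k) (m : Fin 3 →₀ ℕ) (hm : m.degree = 3) :
    coeff m (q * p) = coeff 0 q * coeff m p := by
  classical
  rw [mem_pow_idealOfVars_iff'] at hp
  rw [coeff_mul, Finset.sum_eq_single (0, m)]
  · rintro ⟨a, b⟩ hab hne
    rw [Finset.HasAntidiagonal.mem_antidiagonal] at hab
    simp only at hab ⊢
    have hd : a.degree + b.degree = 3 := by
      have := congrArg Finsupp.degree hab
      rw [map_add, hm] at this
      exact this
    by_cases hb : b.degree < 3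
    · rw [hp b hb, mul_zero]
    · exfalso
      apply hne
      have ha : a.degree = 0 := by omega
      have ha' : a = 0 := (Finsupp.degree_eq_zero_iff a).1 ha
      subst ha'
      rw [zero_add] at hab
      rw [hab]
  · intro h
    exfalso
    apply h
    rw [Finset.HasAntidiagonal.mem_antidiagonal, zero_add]

variable (k)

/-- first functional -/
noncomputable def phiW : MvPolynomial (Fin 3) k →ₗ[k] k :=
  lcoeff k (ex 2 1 0) + lcoeff k (ex 0 2 1) + lcoeff k (ex 1 0 2)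

/-- second functional -/
noncomputable def phiV : MvPolynomial (Fin 3) k →ₗ[k] k := lcoeff k (ex 1 1 1)

variable {k}

theorem phiW_apply (p : MvPolynomial (Fin 3) k) :
    phiW k p = coeff (ex 2 1 0) p + coeff (ex 0 2 1) p + coeff (ex 1 0 2) p := rfl

theorem phiV_apply (p : MvPolynomial (Fin 3) k) : phiV k p = coeff (ex 1 1 1) p := rfl

theorem phiW_mul {p : MvPolynomial (Fin 3) k} (hp : p ∈ idealOfVars (Fin 3) k ^ 3)
    (q : MvPolynomial (Fin 3) k) : phiW k (q * p) = coeff 0 q * phiW k p := by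
  rw [phiW_apply, phiW_apply, coeff_mul_deg3 hp q _ (degree_ex _ _ _),
    coeff_mul_deg3 hp q _ (degree_ex _ _ _), coeff_mul_deg3 hp q _ (degree_ex _ _ _)]
  ring

theorem phiV_mul {p : MvPolynomial (Fin 3) k} (hp : p ∈ idealOfVars (Fin 3) k ^ 3)
    (q : MvPolynomial (Fin 3) k) : phiV k (q * p) = coeff 0 q * phiV k p := by
  rw [phiV_apply, phiV_apply, coeff_mul_deg3 hp q _ (degree_ex _ _ _)]

variable (k)

/-- The ideal. -/
noncomputable def II : Ideal (MvPolynomial (Fin 3) k) where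
  carrier := {p | p ∈ idealOfVars (Fin 3) k ^ 3 ∧ phiW k p = 0 ∧ phiV k p = 0}
  zero_mem' := ⟨Ideal.zero_mem _, map_zero _, map_zero _⟩
  add_mem' := by
    rintro p q ⟨h1, h2, h3⟩ ⟨h1', h2', h3'⟩
    refine ⟨Ideal.add_mem _ h1 h1', ?_, ?_⟩
    · rw [map_add, h2, h2', add_zero]
    · rw [map_add, h3, h3', add_zero]
  smul_mem' := by
    rintro q p ⟨h1, h2, h3⟩
    refine ⟨Ideal.mul_mem_left _ _ h1, ?_, ?_⟩
    · rw [smul_eq_mul, phiW_mul h1, h2, mul_zero]
    · rw [smul_eq_mul, phiV_mul h1, h3, mul_zero]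

variable {k}

theorem mem_II {p : MvPolynomial (Fin 3) k} :
    p ∈ II k ↔ p ∈ idealOfVars (Fin 3) k ^ 3 ∧ phiW k p = 0 ∧ phiV k p = 0 := Iff.rfl

theorem II_le : II k ≤ idealOfVars (Fin 3) k ^ 3 := fun _ h => h.1

theorem coeff_of_mem {p : MvPolynomial (Fin 3) k} (hp : p ∈ II k) {a b c : ℕ}
    (h : a + b + c < 3) : coeff (ex a b c) p = 0 :=
  (mem_pow_idealOfVars_iff' 3 p).1 hp.1 _ (by rw [degree_ex]; exact h)

theorem pow4_le : idealOfVars (Fin 3) k ^ 4 ≤ II k := by
  intro p hp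
  have h := (mem_pow_idealOfVars_iff' 4 p).1 hp
  refine ⟨Ideal.pow_le_pow_right (by norm_num) hp, ?_, ?_⟩
  · rw [phiW_apply, h _ (by rw [degree_ex]; norm_num), h _ (by rw [degree_ex]; norm_num),
      h _ (by rw [degree_ex]; norm_num)]
    simp
  · rw [phiV_apply, h _ (by rw [degree_ex]; norm_num)]

theorem isHomog_II : IsHomog (II k) := by
  intro f hf d
  have h1 := (mem_pow_idealOfVars_iff' 3 f).1 hf.1
  have hc : ∀ m : Fin 3 →₀ ℕ, coeff m (homogeneousComponent d f) =
      if m.degree = d then coeff m f else 0 := fun m => by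
    rw [coeff_homogeneousComponent]
  refine ⟨(mem_pow_idealOfVars_iff' 3 _).2 fun m hm => ?_, ?_, ?_⟩
  · rw [hc]
    split_ifs
    · exact h1 m hm
    · rfl
  · rw [phiW_apply, hc, hc, hc, degree_ex, degree_ex, degree_ex]
    by_cases hd : d = 3
    · subst hd
      simpa [phiW_apply] using hf.2.1
    · have : ¬ (3 = d) := fun h => hd h.symm
      simp [this]
  · rw [phiV_apply, hc, degree_ex]
    split_ifs
    · exact hf.2.2
    · rfl

theorem II_le_sq : II k ≤ idealOfVars (Fin 3) k ^ 2 :=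
  II_le.trans (Ideal.pow_le_pow_right (by norm_num))

/-- the linear part plus the constant term -/
theorem sub_lin_mem (p : MvPolynomial (Fin 3) k) :
    p - (C (coeff (ex 0 0 0) p) + C (coeff (ex 1 0 0) p) * X 0 + C (coeff (ex 0 1 0) p) * X 1
      + C (coeff (ex 0 0 1) p) * X 2) ∈ idealOfVars (Fin 3) k ^ 2 := by
  classical
  rw [mem_pow_idealOfVars_iff']
  intro m hm
  rw [eq_ex m, degree_ex] at hm
  rw [eq_ex m]
  generalize m 0 = a at *
  generalize m 1 = b at *
  generalize m 2 = c at *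
  have h0 : (0 : Fin 3 →₀ ℕ) = ex 0 0 0 := by simp [ex]
  have hX0 : (Finsupp.single 0 1 : Fin 3 →₀ ℕ) = ex 1 0 0 := by simp [ex]
  have hX1 : (Finsupp.single 1 1 : Fin 3 →₀ ℕ) = ex 0 1 0 := by simp [ex]
  have hX2 : (Finsupp.single 2 1 : Fin 3 →₀ ℕ) = ex 0 0 1 := by simp [ex]
  have key : ∀ a b c a' b' c' : ℕ, (ex a b c = ex a' b' c') ↔ (a = a' ∧ b = b' ∧ c = c') :=
    fun a b c a' b' c' => ⟨ex_inj, fun ⟨h1, h2, h3⟩ => by rw [h1, h2, h3]⟩
  simp only [coeff_sub, coeff_add, coeff_C, coeff_C_mul, coeff_X, h0, hX0, hX1, hX2, key]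
  have h : (a = 0 ∧ b = 0 ∧ c = 0) ∨ (a = 1 ∧ b = 0 ∧ c = 0) ∨ (a = 0 ∧ b = 1 ∧ c = 0) ∨
    (a = 0 ∧ b = 0 ∧ c = 1) := by omega
  rcases h with ⟨rfl, rfl, rfl⟩ | ⟨rfl, rfl, rfl⟩ | ⟨rfl, rfl, rfl⟩ | ⟨rfl, rfl, rfl⟩ <;> simp

end ideal


/-! ### The quotient ring -/

section quotient

variable (k : Type u) [Field k]

/-- The quotient ring. -/
abbrev RR : Type u := MvPolynomial (Fin 3) k ⧸ II k

variable {k}

/-- the class of a polynomial -/
noncomputable abbrev mkR : MvPolynomial (Fin 3) k →+* RR k := Ideal.Quotient.mk (II k)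

theorem var_apply (i : Fin 3) : var (II k) i = mkR (X i) := rfl

/-- the maximal ideal -/
noncomputable def mm : Ideal (RR k) := Ideal.span (Set.range (var (II k)))

theorem mm_eq : (mm : Ideal (RR k)) = (idealOfVars (Fin 3) k).map mkR := by
  rw [mm, idealOfVars, Ideal.map_span]
  congr 1
  ext y
  simp only [Set.mem_range, Set.mem_image]
  constructor
  · rintro ⟨i, rfl⟩; exact ⟨X i, ⟨i, rfl⟩, rfl⟩
  · rintro ⟨_, ⟨i, rfl⟩, rfl⟩; exact ⟨i, rfl⟩

theorem mk_mem_pow {p : MvPolynomial (Fin 3) k} {j : ℕ} (hp : p ∈ idealOfVars (Fin 3) k ^ j) :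
    mkR p ∈ (mm : Ideal (RR k)) ^ j := by
  rw [mm_eq, ← Ideal.map_pow]
  exact Ideal.mem_map_of_mem _ hp

theorem mm_pow4 : (mm : Ideal (RR k)) ^ 4 = ⊥ := by
  rw [mm_eq, ← Ideal.map_pow, Ideal.map_eq_bot_iff_le_ker, Ideal.mk_ker]
  exact pow4_le

theorem alg_eq (a : k) : algebraMap k (RR k) a = mkR (C a) := rfl

/-- the class of the linear part -/
theorem exists_lin (r : RR k) : ∃ p : MvPolynomial (Fin 3) k, mkR p = r :=
  Ideal.Quotient.mk_surjective r

theorem sub_lin (p : MvPolynomial (Fin 3) k) (h0 : coeff (ex 0 0 0) p = 0) :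
    mkR p - (mkR (C (coeff (ex 1 0 0) p)) * var (II k) 0 + mkR (C (coeff (ex 0 1 0) p)) * var (II k) 1
      + mkR (C (coeff (ex 0 0 1) p)) * var (II k) 2) ∈ (mm : Ideal (RR k)) ^ 2 := by
  have h := mk_mem_pow (sub_lin_mem p)
  rw [h0] at h
  simpa [var_apply] using h

/-- the socle lies in the square of the maximal ideal -/
theorem soc_mem {p : MvPolynomial (Fin 3) k} (h0 : X 0 * p ∈ II k) (h1 : X 1 * p ∈ II k)
    (h2 : X 2 * p ∈ II k) : p ∈ idealOfVars (Fin 3) k ^ 3 := by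
  rw [mem_pow_idealOfVars_iff']
  intro m hm
  rw [eq_ex m, degree_ex] at hm
  rw [eq_ex m]
  generalize m 0 = a at *
  generalize m 1 = b at *
  generalize m 2 = c at *
  have w0 := h0.2.1
  have w1 := h1.2.1
  have w2 := h2.2.1
  have v0 := h0.2.2
  have v1 := h1.2.2
  have v2 := h2.2.2
  rw [phiW_apply] at w0 w1 w2
  rw [phiV_apply] at v0 v1 v2
  rw [show ex 2 1 0 = ex (1 + 1) 1 0 from rfl, show ex 1 0 2 = ex (0 + 1) 0 2 from rfl,
    cX0, cX0, cX0'] at w0
  rw [show ex 2 1 0 = ex 2 (0 + 1) 0 from rfl, show ex 0 2 1 = ex 0 (1 + 1) 1 from rfl,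
    cX1, cX1, cX1'] at w1
  rw [show ex 0 2 1 = ex 0 2 (0 + 1) from rfl, show ex 1 0 2 = ex 1 0 (1 + 1) from rfl,
    cX2, cX2, cX2'] at w2
  rw [show ex 1 1 1 = ex (0 + 1) 1 1 from rfl, cX0] at v0
  rw [show ex 1 1 1 = ex 1 (0 + 1) 1 from rfl, cX1] at v1
  rw [show ex 1 1 1 = ex 1 1 (0 + 1) from rfl, cX2] at v2
  by_cases hs : a + b + c < 2
  · rw [← cX0]
    exact coeff_of_mem h0 (by omega)
  · have hcases : (a = 2 ∧ b = 0 ∧ c = 0) ∨ (a = 0 ∧ b = 2 ∧ c = 0) ∨ (a = 0 ∧ b = 0 ∧ c = 2) ∨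
      (a = 1 ∧ b = 1 ∧ c = 0) ∨ (a = 1 ∧ b = 0 ∧ c = 1) ∨ (a = 0 ∧ b = 1 ∧ c = 1) := by omega
    rcases hcases with ⟨rfl, rfl, rfl⟩ | ⟨rfl, rfl, rfl⟩ | ⟨rfl, rfl, rfl⟩ | ⟨rfl, rfl, rfl⟩ |
      ⟨rfl, rfl, rfl⟩ | ⟨rfl, rfl, rfl⟩
    · linear_combination w1 - v0
    · linear_combination w2 - v1
    · linear_combination w0 - v2
    · exact v2
    · exact v1
    · exact v0

theorem soc_iff (p : MvPolynomial (Fin 3) k) :
    (∀ i, var (II k) i * mkR p = 0) ↔ p ∈ idealOfVars (Fin 3) k ^ 3 := by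
  constructor
  · intro h
    have h' : ∀ i, X i * p ∈ II k := fun i => by
      have := h i
      rw [var_apply, ← map_mul] at this
      exact Ideal.Quotient.eq_zero_iff_mem.1 this
    exact soc_mem (h' 0) (h' 1) (h' 2)
  · intro h i
    rw [var_apply, ← map_mul]
    apply Ideal.Quotient.eq_zero_iff_mem.2
    apply pow4_le
    rw [show (4 : ℕ) = 1 + 3 from rfl, pow_add, pow_one]
    exact Ideal.mul_mem_mul (Ideal.subset_span ⟨i, rfl⟩) h

end quotient


/-! ### The Koszul complex on three elements -/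

section three

variable {R : Type u} [CommRing R] (x : Fin 3 → R)

/-- the linear form of the Koszul complex -/
noncomputable abbrev ph : (Fin 3 → R) →ₗ[R] R :=
  ∑ i, x i • (LinearMap.proj i : (Fin 3 → R) →ₗ[R] R)

theorem ph_apply (v : Fin 3 → R) : ph x v = x 0 * v 0 + x 1 * v 1 + x 2 * v 2 := by
  simp [ph, Fin.sum_univ_three, LinearMap.sum_apply]

/-- the generators -/
noncomputable def E (i : Fin 3) : ExteriorAlgebra R (Fin 3 → R) :=
  ExteriorAlgebra.ι R (Pi.single i 1)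

theorem iota_eq (v : Fin 3 → R) :
    ExteriorAlgebra.ι R v = v 0 • E 0 + v 1 • E 1 + v 2 • (E 2 : ExteriorAlgebra R _) := by
  have h : v = v 0 • Pi.single 0 1 + v 1 • Pi.single 1 1 + v 2 • Pi.single 2 (1 : R) := by
    ext i; fin_cases i <;> simp
  conv_lhs => rw [h]
  simp only [map_add, map_smul, E]

theorem E_sq (i : Fin 3) : (E i * E i : ExteriorAlgebra R (Fin 3 → R)) = 0 :=
  ExteriorAlgebra.ι_sq_zero _

theorem E_anti (i j : Fin 3) :
    (E i * E j : ExteriorAlgebra R (Fin 3 → R)) = -(E j * E i) :=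
  eq_neg_of_add_eq_zero_left (ExteriorAlgebra.ι_add_mul_swap _ _)

theorem d_iota (v : Fin 3 → R) :
    kosD (ph x) (ExteriorAlgebra.ι R v) = algebraMap R _ (ph x v) :=
  CliffordAlgebra.contractLeft_ι _ _ _

theorem ph_single (i : Fin 3) : ph x (Pi.single i 1) = x i := by
  rw [ph_apply]
  fin_cases i <;> simp

theorem d_E (i : Fin 3) : kosD (ph x) (E i) = algebraMap R _ (x i) := by
  rw [E, d_iota, ph_single]

theorem d_E_mul (i : Fin 3) (b : ExteriorAlgebra R (Fin 3 → R)) :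
    kosD (ph x) (E i * b) = x i • b - E i * kosD (ph x) b := by
  rw [kosD, E, ExteriorAlgebra.ι, CliffordAlgebra.contractLeft_ι_mul, ph_single]

theorem mul_alg (b : ExteriorAlgebra R (Fin 3 → R)) (r : R) :
    b * algebraMap R _ r = r • b := by
  rw [← Algebra.commutes, ← Algebra.smul_def]

theorem d_EE (i j : Fin 3) : kosD (ph x) (E i * E j) = x i • E j - x j • E i := by
  rw [d_E_mul, d_E, mul_alg]

theorem d_EEE : kosD (ph x) (E 0 * (E 1 * E 2)) =
    x 0 • (E 1 * E 2) - x 1 • (E 0 * E 2) + x 2 • (E 0 * E 1) := by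
  rw [d_E_mul, d_EE, mul_sub, mul_smul_comm, mul_smul_comm]
  module

theorem mem1 {z : ExteriorAlgebra R (Fin 3 → R)} (hz : z ∈ ⋀[R]^1 (Fin 3 → R)) :
    ∃ v : Fin 3 → R, z = ExteriorAlgebra.ι R v := by
  rw [ExteriorAlgebra.exteriorPower, pow_one] at hz
  obtain ⟨v, rfl⟩ := hz
  exact ⟨v, rfl⟩

theorem le2 : ⋀[R]^2 (Fin 3 → R) ≤
    Submodule.span R {E 0 * E 1, E 0 * E 2, (E 1 * E 2 : ExteriorAlgebra R (Fin 3 → R))} := by
  rw [ExteriorAlgebra.exteriorPower, pow_two, Submodule.mul_le]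
  rintro _ ⟨v, rfl⟩ _ ⟨w, rfl⟩
  rw [Submodule.mem_span_triple]
  refine ⟨v 0 * w 1 - v 1 * w 0, v 0 * w 2 - v 2 * w 0, v 1 * w 2 - v 2 * w 1, ?_⟩
  rw [iota_eq, iota_eq]
  simp only [mul_add, add_mul, smul_mul_smul_comm, E_sq, smul_zero]
  rw [E_anti 1 0, E_anti 2 0, E_anti 2 1]
  module

theorem mem2 {z : ExteriorAlgebra R (Fin 3 → R)} (hz : z ∈ ⋀[R]^2 (Fin 3 → R)) :
    ∃ a b c : R, z = a • (E 0 * E 1) + b • (E 0 * E 2) + c • (E 1 * E 2) := by
  obtain ⟨a, b, c, h⟩ := Submodule.mem_span_triple.1 (le2 hz)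
  exact ⟨a, b, c, h.symm⟩

theorem E_mul_mul (i j : Fin 3) (b : ExteriorAlgebra R (Fin 3 → R)) :
    E i * (E j * b) = -(E j * (E i * b)) := by
  rw [← mul_assoc, E_anti i j, neg_mul, mul_assoc]

theorem E_sq_mul (i : Fin 3) (b : ExteriorAlgebra R (Fin 3 → R)) : E i * (E i * b) = 0 := by
  rw [← mul_assoc, E_sq, zero_mul]

theorem le3 : ⋀[R]^3 (Fin 3 → R) ≤
    Submodule.span R {(E 0 * (E 1 * E 2) : ExteriorAlgebra R (Fin 3 → R))} := by
  rw [ExteriorAlgebra.exteriorPower, pow_succ', Submodule.mul_le]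
  rintro _ ⟨v, rfl⟩ w hw
  obtain ⟨a, b, c, rfl⟩ := mem2 hw
  rw [Submodule.mem_span_singleton]
  refine ⟨v 0 * c - v 1 * b + v 2 * a, ?_⟩
  rw [iota_eq]
  simp only [mul_add, add_mul, smul_mul_smul_comm, E_sq_mul, smul_zero]
  have h1 : (E 1 * (E 0 * E 1) : ExteriorAlgebra R (Fin 3 → R)) = 0 := by
    rw [E_mul_mul, E_sq, mul_zero, neg_zero]
  have h2 : (E 2 * (E 0 * E 2) : ExteriorAlgebra R (Fin 3 → R)) = 0 := by
    rw [E_mul_mul, E_sq, mul_zero, neg_zero]
  have h3 : (E 2 * (E 1 * E 2) : ExteriorAlgebra R (Fin 3 → R)) = 0 := by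
    rw [E_mul_mul, E_sq, mul_zero, neg_zero]
  have h4 : (E 1 * (E 0 * E 2) : ExteriorAlgebra R (Fin 3 → R)) = -(E 0 * (E 1 * E 2)) :=
    E_mul_mul _ _ _
  have h5 : (E 2 * (E 0 * E 1) : ExteriorAlgebra R (Fin 3 → R)) = E 0 * (E 1 * E 2) := by
    rw [E_mul_mul, E_anti 2 1, mul_neg, neg_neg]
  rw [h1, h2, h3, h4, h5]
  module

theorem mem3 {z : ExteriorAlgebra R (Fin 3 → R)} (hz : z ∈ ⋀[R]^3 (Fin 3 → R)) :
    ∃ a : R, z = a • (E 0 * (E 1 * E 2)) := by
  obtain ⟨a, h⟩ := Submodule.mem_span_singleton.1 (le3 hz)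
  exact ⟨a, h.symm⟩

theorem eq4 : ⋀[R]^4 (Fin 3 → R) = ⊥ := by
  rw [eq_bot_iff, ExteriorAlgebra.exteriorPower, pow_succ', Submodule.mul_le]
  rintro _ ⟨v, rfl⟩ w hw
  obtain ⟨a, rfl⟩ := mem3 hw
  rw [Submodule.mem_bot, iota_eq]
  simp only [add_mul, smul_mul_smul_comm, E_sq_mul, smul_zero]
  have h1 : (E 1 * (E 0 * (E 1 * E 2)) : ExteriorAlgebra R (Fin 3 → R)) = 0 := by
    rw [E_mul_mul, E_sq_mul, mul_zero, neg_zero]
  have h2 : (E 2 * (E 0 * (E 1 * E 2)) : ExteriorAlgebra R (Fin 3 → R)) = 0 := by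
    rw [E_mul_mul, E_mul_mul 2 1, E_sq, mul_zero, neg_zero, mul_zero, neg_zero]
  rw [h1, h2]
  simp

theorem mem4 {i : ℕ} (hi : 4 ≤ i) {z : ExteriorAlgebra R (Fin 3 → R)}
    (hz : z ∈ ⋀[R]^i (Fin 3 → R)) : z = 0 := by
  obtain ⟨j, rfl⟩ := Nat.exists_eq_add_of_le hi
  have h4 := eq4 (R := R)
  rw [ExteriorAlgebra.exteriorPower] at h4 hz
  rw [pow_add, h4, Submodule.bot_mul, Submodule.mem_bot] at hz
  exact hz

theorem E_mem : ∀ i : Fin 3, (E i : ExteriorAlgebra R (Fin 3 → R)) ∈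
    LinearMap.range (ExteriorAlgebra.ι R (M := Fin 3 → R)) := fun i => ⟨_, rfl⟩

theorem EE_mem (i j : Fin 3) : (E i * E j : ExteriorAlgebra R (Fin 3 → R)) ∈
    ⋀[R]^2 (Fin 3 → R) := by
  rw [ExteriorAlgebra.exteriorPower, pow_two]
  exact Submodule.mul_mem_mul (E_mem i) (E_mem j)

theorem EEE_mem (i j l : Fin 3) : (E i * (E j * E l) : ExteriorAlgebra R (Fin 3 → R)) ∈
    ⋀[R]^3 (Fin 3 → R) := by
  rw [ExteriorAlgebra.exteriorPower, pow_succ']
  exact Submodule.mul_mem_mul (E_mem i) (EE_mem j l)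

end three


/-! ### The quotient is Golod -/

section golod

variable {k : Type u} [Field k]

theorem lin_eqs {p q r : MvPolynomial (Fin 3) k} (h : X 0 * p + X 1 * q + X 2 * r ∈ II k) :
    (coeff (ex 0 0 0) p = 0 ∧ coeff (ex 0 0 0) q = 0 ∧ coeff (ex 0 0 0) r = 0) ∧
    (coeff (ex 1 0 0) p = 0 ∧ coeff (ex 0 1 0) q = 0 ∧ coeff (ex 0 0 1) r = 0) ∧
    coeff (ex 0 1 0) p + coeff (ex 1 0 0) q = 0 ∧ coeff (ex 0 0 1) p + coeff (ex 1 0 0) r = 0 ∧
      coeff (ex 0 0 1) q + coeff (ex 0 1 0) r = 0 := by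
  have e1 := coeff_of_mem h (a := 0 + 1) (b := 0) (c := 0) (by norm_num)
  have e2 := coeff_of_mem h (a := 0) (b := 0 + 1) (c := 0) (by norm_num)
  have e3 := coeff_of_mem h (a := 0) (b := 0) (c := 0 + 1) (by norm_num)
  have e4 := coeff_of_mem h (a := 1 + 1) (b := 0) (c := 0) (by norm_num)
  have e5 := coeff_of_mem h (a := 0) (b := 1 + 1) (c := 0) (by norm_num)
  have e6 := coeff_of_mem h (a := 0) (b := 0) (c := 1 + 1) (by norm_num)
  have e7 := coeff_of_mem h (a := 0 + 1) (b := 0 + 1) (c := 0) (by norm_num)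
  have e8 := coeff_of_mem h (a := 0 + 1) (b := 0) (c := 0 + 1) (by norm_num)
  have e9 := coeff_of_mem h (a := 0) (b := 0 + 1) (c := 0 + 1) (by norm_num)
  simp only [coeff_add, cX0, cX1, cX2, cX0', cX1', cX2', add_zero, zero_add] at e1 e2 e3 e4 e5 e6
  simp only [coeff_add, cX0, cX1, cX2, cX0', cX1', cX2', add_zero, zero_add] at e7 e8 e9
  exact ⟨⟨e1, e2, e3⟩, ⟨e4, e5, e6⟩, e7, e8, e9⟩

variable (k) in
/-- the variables of the quotient ring -/
noncomputable abbrev xx : Fin 3 → RR k := var (II k)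

theorem lin_eqs' {p q r : MvPolynomial (Fin 3) k}
    (h : xx k 0 * mkR p + xx k 1 * mkR q + xx k 2 * mkR r = 0) :
    (coeff (ex 0 0 0) p = 0 ∧ coeff (ex 0 0 0) q = 0 ∧ coeff (ex 0 0 0) r = 0) ∧
    (coeff (ex 1 0 0) p = 0 ∧ coeff (ex 0 1 0) q = 0 ∧ coeff (ex 0 0 1) r = 0) ∧
    coeff (ex 0 1 0) p + coeff (ex 1 0 0) q = 0 ∧ coeff (ex 0 0 1) p + coeff (ex 1 0 0) r = 0 ∧
      coeff (ex 0 0 1) q + coeff (ex 0 1 0) r = 0 := by
  apply lin_eqs
  apply Ideal.Quotient.eq_zero_iff_mem.1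
  rw [map_add, map_add, map_mul, map_mul, map_mul]
  exact h

variable (k) in
/-- the generators of the Koszul complex of the quotient ring -/
noncomputable abbrev F (i : Fin 3) : ExteriorAlgebra (RR k) (Fin 3 → RR k) := E i

/-- the submodule `m² K` -/
noncomputable def m2K : Submodule (RR k) (ExteriorAlgebra (RR k) (Fin 3 → RR k)) :=
  (mm ^ 2 : Ideal (RR k)) • ⊤

theorem smul_mem_m2K {r : RR k} (hr : r ∈ (mm : Ideal (RR k)) ^ 2)
    (z : ExteriorAlgebra (RR k) (Fin 3 → RR k)) : r • z ∈ m2K (k := k) :=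
  Submodule.smul_mem_smul hr Submodule.mem_top

theorem m2K_mul {z w : ExteriorAlgebra (RR k) (Fin 3 → RR k)} (hz : z ∈ m2K (k := k))
    (hw : w ∈ m2K (k := k)) : z * w = 0 := by
  refine Submodule.smul_induction_on hz (fun r hr z _ => ?_) (fun a b ha hb => ?_)
  · refine Submodule.smul_induction_on hw (fun s hs w _ => ?_) (fun a b ha hb => ?_)
    · rw [smul_mul_smul_comm]
      have : r * s ∈ (mm : Ideal (RR k)) ^ 4 := by
        rw [show (4 : ℕ) = 2 + 2 from rfl, pow_add]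
        exact Ideal.mul_mem_mul hr hs
      rw [mm_pow4, Submodule.mem_bot] at this
      rw [this]
      exact zero_smul (RR k) (z * w)
    · rw [mul_add, ha, hb, add_zero]
  · rw [add_mul, ha, hb, add_zero]

theorem m2K_involute {z : ExteriorAlgebra (RR k) (Fin 3 → RR k)} (hz : z ∈ m2K (k := k)) :
    -CliffordAlgebra.involute z ∈ m2K (k := k) := by
  apply neg_mem
  refine Submodule.smul_induction_on hz (fun r hr z _ => ?_) (fun a b ha hb => ?_)
  · rw [map_smul]
    exact smul_mem_m2K hr _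
  · rw [map_add]
    exact add_mem ha hb

theorem key1 (v : Fin 3 → RR k) (h : kosD (ph (xx k)) (ExteriorAlgebra.ι (RR k) v) = 0) :
    ∃ w ∈ ⋀[RR k]^2 (Fin 3 → RR k),
      ExteriorAlgebra.ι (RR k) v - kosD (ph (xx k)) w ∈ m2K (k := k) := by
  rw [d_iota, ExteriorAlgebra.algebraMap_eq_zero_iff, ph_apply] at h
  obtain ⟨p, hp⟩ := exists_lin (v 0)
  obtain ⟨q, hq⟩ := exists_lin (v 1)
  obtain ⟨r, hr⟩ := exists_lin (v 2)
  rw [← hp, ← hq, ← hr] at h
  obtain ⟨⟨a1, a2, a3⟩, ⟨b1, b2, b3⟩, c1, c2, c3⟩ := lin_eqs' h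
  have s1 := sub_lin p a1
  have s2 := sub_lin q a2
  have s3 := sub_lin r a3
  rw [b1, map_zero, map_zero, zero_mul, zero_add] at s1
  rw [b2, map_zero, map_zero, zero_mul, add_zero] at s2
  rw [b3, map_zero, map_zero, zero_mul, add_zero] at s3
  set l01 := coeff (ex 0 1 0) p
  set l02 := coeff (ex 0 0 1) p
  set l12 := coeff (ex 0 0 1) q
  have t1 : coeff (ex 1 0 0) q = -l01 := by linear_combination c1
  have t2 : coeff (ex 1 0 0) r = -l02 := by linear_combination c2
  have t3 : coeff (ex 0 1 0) r = -l12 := by linear_combination c3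
  rw [t1] at s2
  rw [t2, t3] at s3
  refine ⟨-(mkR (C l01) • (F k 0 * F k 1) + mkR (C l02) • (F k 0 * F k 2) + mkR (C l12) • (F k 1 * F k 2)),
    ?_, ?_⟩
  · apply neg_mem
    exact add_mem (add_mem (Submodule.smul_mem _ _ (EE_mem _ _))
      (Submodule.smul_mem _ _ (EE_mem _ _))) (Submodule.smul_mem _ _ (EE_mem _ _))
  · rw [map_neg, map_add, map_add, map_smul, map_smul, map_smul, d_EE, d_EE, d_EE, iota_eq,
      ← hp, ← hq, ← hr]
    have e : mkR p • F k 0 + mkR q • F k 1 + mkR r • F k 2 -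
        -(mkR (C l01) • (xx k 0 • F k 1 - xx k 1 • F k 0) + mkR (C l02) • (xx k 0 • F k 2 - xx k 2 • F k 0) +
          mkR (C l12) • (xx k 1 • F k 2 - xx k 2 • F k 1)) =
        (mkR p - (mkR (C l01) * xx k 1 + mkR (C l02) * xx k 2)) • (F k 0 :
          ExteriorAlgebra (RR k) (Fin 3 → RR k)) +
        (mkR q - (mkR (C (-l01)) * xx k 0 + mkR (C l12) * xx k 2)) • F k 1 +
        (mkR r - (mkR (C (-l02)) * xx k 0 + mkR (C (-l12)) * xx k 1)) • F k 2 := by
      simp only [map_neg]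
      module
    rw [e]
    exact add_mem (add_mem (smul_mem_m2K s1 _) (smul_mem_m2K s2 _)) (smul_mem_m2K s3 _)

theorem key2 (a b c : RR k)
    (h : kosD (ph (xx k)) (a • (F k 0 * F k 1) + b • (F k 0 * F k 2) + c • (F k 1 * F k 2)) = 0) :
    ∃ w ∈ ⋀[RR k]^3 (Fin 3 → RR k),
      a • (F k 0 * F k 1) + b • (F k 0 * F k 2) + c • (F k 1 * F k 2) - kosD (ph (xx k)) w ∈ m2K (k := k) := by
  have h' : ExteriorAlgebra.ι (RR k)
      ![-(a * xx k 1) - b * xx k 2, a * xx k 0 - c * xx k 2, b * xx k 0 + c * xx k 1] = 0 := by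
    rw [iota_eq, ← h, map_add, map_add, map_smul, map_smul, map_smul, d_EE, d_EE, d_EE]
    simp only [Matrix.cons_val_zero, Matrix.cons_val_one, Matrix.cons_val]
    module
  rw [ExteriorAlgebra.ι_eq_zero_iff] at h'
  have h0 := congrFun h' 0
  have h1 := congrFun h' 1
  have h2 := congrFun h' 2
  simp only [Matrix.cons_val_zero, Matrix.cons_val_one, Matrix.cons_val, Pi.zero_apply] at h0 h1 h2
  obtain ⟨p, rfl⟩ := exists_lin a
  obtain ⟨q, rfl⟩ := exists_lin b
  obtain ⟨r, rfl⟩ := exists_lin c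
  obtain ⟨⟨-, a2, a3⟩, ⟨-, b2, b3⟩, -, -, c3⟩ := lin_eqs' (p := 0) (q := p) (r := q) (by
    rw [map_zero]; linear_combination -h0)
  obtain ⟨⟨-, -, a3'⟩, ⟨b1', -, b3'⟩, c1', c2', c3'⟩ := lin_eqs' (p := p) (q := 0) (r := -r) (by
    rw [map_zero, map_neg]; linear_combination h1)
  obtain ⟨-, ⟨b1'', -, -⟩, c1'', -, -⟩ := lin_eqs' (p := q) (q := r) (r := 0) (by
    rw [map_zero]; linear_combination h2)
  simp only [coeff_zero, coeff_neg, add_zero, zero_add, neg_eq_zero] at c3 a3' b3' c1' c2' c3'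
  have s1 := sub_lin p a2
  have s2 := sub_lin q a3
  have s3 := sub_lin r a3'
  have t1 : coeff (ex 0 0 1) p = coeff (ex 1 0 0) r := by linear_combination c2'
  have t2 : coeff (ex 0 1 0) q = -coeff (ex 1 0 0) r := by linear_combination c1''
  set l := coeff (ex 1 0 0) r
  rw [b1', b2, t1, map_zero, map_zero, zero_mul, zero_add, zero_mul, zero_add] at s1
  rw [b1'', b3, t2, map_zero, map_zero, zero_mul, zero_mul, zero_add, add_zero] at s2
  rw [b3', c3', map_zero, map_zero, zero_mul, zero_mul, add_zero, add_zero] at s3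
  refine ⟨mkR (C l) • (F k 0 * (F k 1 * F k 2)), Submodule.smul_mem _ _ (EEE_mem _ _ _), ?_⟩
  rw [map_smul, d_EEE]
  have e : mkR p • (F k 0 * F k 1) + mkR q • (F k 0 * F k 2) + mkR r • (F k 1 * F k 2) -
      mkR (C l) • (xx k 0 • (F k 1 * F k 2) - xx k 1 • (F k 0 * F k 2) + xx k 2 • (F k 0 * F k 1)) =
      (mkR p - mkR (C l) * xx k 2) • (F k 0 * F k 1 : ExteriorAlgebra (RR k) (Fin 3 → RR k)) +
      (mkR q - mkR (C (-l)) * xx k 1) • (F k 0 * F k 2) + (mkR r - mkR (C l) * xx k 0) • (F k 1 * F k 2) := by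
    simp only [map_neg]
    module
  rw [e]
  exact add_mem (add_mem (smul_mem_m2K s1 _) (smul_mem_m2K s2 _)) (smul_mem_m2K s3 _)

theorem key3 (a : RR k) (h : kosD (ph (xx k)) (a • (F k 0 * (F k 1 * F k 2))) = 0) :
    a • (F k 0 * (F k 1 * F k 2)) ∈ m2K (k := k) := by
  rw [map_smul, d_EEE] at h
  have g : ∀ y : Fin 3 → RR k, ExteriorAlgebra.ι (RR k)
      ![a * xx k 1 * y 2 - a * xx k 2 * y 1, a * xx k 2 * y 0 - a * xx k 0 * y 2,
        a * xx k 0 * y 1 - a * xx k 1 * y 0] = 0 := by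
    intro y
    have h' := congrArg (kosD (ph y)) h
    rw [map_smul, map_add, map_sub, map_smul, map_smul, map_smul, d_EE, d_EE, d_EE, map_zero] at h'
    rw [iota_eq, ← h']
    simp only [Matrix.cons_val_zero, Matrix.cons_val_one, Matrix.cons_val]
    module
  have g0 := g (Pi.single 0 1)
  have g1 := g (Pi.single 1 1)
  rw [ExteriorAlgebra.ι_eq_zero_iff] at g0 g1
  have i1 := congrFun g0 1
  have i2 := congrFun g0 2
  have i3 := congrFun g1 2
  simp at i1 i2 i3
  obtain ⟨p, rfl⟩ := exists_lin a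
  have hp : p ∈ idealOfVars (Fin 3) k ^ 3 := by
    rw [← soc_iff]
    intro i
    fin_cases i
    · simpa [mul_comm] using i3
    · simpa [mul_comm] using i2
    · simpa [mul_comm] using i1
  exact smul_mem_m2K (Ideal.pow_le_pow_right (by norm_num) (mk_mem_pow hp)) _

theorem key {i : ℕ} (hi : 1 ≤ i) {z : ExteriorAlgebra (RR k) (Fin 3 → RR k)}
    (hz : z ∈ ⋀[RR k]^i (Fin 3 → RR k)) (h : kosD (ph (xx k)) z = 0) :
    ∃ w ∈ ⋀[RR k]^(i + 1) (Fin 3 → RR k), z - kosD (ph (xx k)) w ∈ m2K (k := k) := by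
  have hcases : i = 1 ∨ i = 2 ∨ i = 3 ∨ 4 ≤ i := by omega
  rcases hcases with rfl | rfl | rfl | hi4
  · obtain ⟨v, rfl⟩ := mem1 hz
    exact key1 v h
  · obtain ⟨a, b, c, rfl⟩ := mem2 hz
    exact key2 a b c h
  · obtain ⟨a, rfl⟩ := mem3 hz
    refine ⟨0, zero_mem _, ?_⟩
    rw [map_zero, sub_zero]
    exact key3 a h
  · refine ⟨0, zero_mem _, ?_⟩
    rw [mem4 hi4 hz, map_zero, sub_zero]
    exact zero_mem _

end golod


section golod2

variable {k : Type u} [Field k]

/-- good homogeneous cycles -/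
def good : Set (ExteriorAlgebra (RR k) (Fin 3 → RR k)) :=
  {z | ∃ i, 1 ≤ i ∧ z ∈ ⋀[RR k]^i (Fin 3 → RR k) ∧ kosD (ph (xx k)) z = 0 ∧ z ∈ m2K (k := k)}

theorem kosD_kosD (z : ExteriorAlgebra (RR k) (Fin 3 → RR k)) :
    kosD (ph (xx k)) (kosD (ph (xx k)) z) = 0 :=
  CliffordAlgebra.contractLeft_contractLeft _ _

theorem d_mem_bdr {i : ℕ} (hi : 1 ≤ i) {w : ExteriorAlgebra (RR k) (Fin 3 → RR k)}
    (hw : w ∈ ⋀[RR k]^(i + 1) (Fin 3 → RR k)) : kosD (ph (xx k)) w ∈ bdr (ph (xx k)) := by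
  refine Submodule.mem_iSup_of_mem i (Submodule.mem_iSup_of_mem hi ?_)
  exact ⟨w, hw, rfl⟩

theorem d_mem_ext {R : Type u} [CommRing R] {M : Type u} [AddCommGroup M] [Module R M]
    (φ : M →ₗ[R] R) (i : ℕ) {w : ExteriorAlgebra R M} (hw : w ∈ ⋀[R]^(i + 1) M) :
    kosD φ w ∈ ⋀[R]^i M := by
  induction i generalizing w with
  | zero =>
    rw [zero_add, ExteriorAlgebra.exteriorPower, pow_one] at hw
    obtain ⟨v, rfl⟩ := hw
    rw [kosD, ExteriorAlgebra.ι, CliffordAlgebra.contractLeft_ι, ExteriorAlgebra.exteriorPower,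
      pow_zero]
    exact Submodule.algebraMap_mem _
  | succ i ih =>
    rw [ExteriorAlgebra.exteriorPower, pow_succ'] at hw
    refine Submodule.mul_induction_on hw ?_ ?_
    · rintro _ ⟨v, rfl⟩ b hb
      rw [kosD, ExteriorAlgebra.ι, CliffordAlgebra.contractLeft_ι_mul]
      refine sub_mem (Submodule.smul_mem _ _ hb) ?_
      rw [ExteriorAlgebra.exteriorPower, pow_succ']
      exact Submodule.mul_mem_mul ⟨v, rfl⟩ (ih hb)
    · intro a b ha hb
      rw [map_add]
      exact add_mem ha hb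

theorem golod : IsGolod k (var (II k)) := by
  classical
  let V := ExteriorAlgebra (RR k) (Fin 3 → RR k) ⧸ bdr (ph (xx k))
  letI : Module k V := Module.compHom V (algebraMap k (RR k))
  have hsm : ∀ (a : k) (v : V), a • v = algebraMap k (RR k) a • v := fun _ _ => rfl
  let π : ExteriorAlgebra (RR k) (Fin 3 → RR k) →ₗ[RR k] V := (bdr (ph (xx k))).mkQ
  obtain ⟨b, hb1, hb2, hb3⟩ := exists_linearIndependent k (π '' good (k := k))
  have hcyc : ∀ z ∈ cyc (ph (xx k)), π z ∈ Submodule.span k (π '' good (k := k)) := by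
    intro z hz
    refine Submodule.iSup_induction _ (motive := fun z => π z ∈ Submodule.span k
      (π '' good (k := k))) hz ?_ ?_ ?_
    · intro i z hz
      by_cases hi : 1 ≤ i
      · simp only [ge_iff_le, hi, iSup_pos] at hz
        obtain ⟨h1, h2⟩ := hz
        obtain ⟨w, hw1, hw2⟩ := key hi h1 h2
        have h3 : z - kosD (ph (xx k)) w ∈ good (k := k) := by
          refine ⟨i, hi, sub_mem h1 (d_mem_ext _ i hw1), ?_, hw2⟩
          rw [map_sub, kosD_kosD, sub_zero]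
          exact h2
        have h4 : π z = π (z - kosD (ph (xx k)) w) := by
          have h5 : π (kosD (ph (xx k)) w) = 0 :=
            (Submodule.Quotient.mk_eq_zero _).2 (d_mem_bdr hi hw1)
          rw [map_sub, h5, sub_zero]
        rw [h4]
        exact Submodule.subset_span ⟨_, h3, rfl⟩
      · simp only [ge_iff_le, hi, iSup_false] at hz
        rw [Submodule.mem_bot] at hz
        rw [hz, map_zero]
        exact zero_mem _
    · rw [map_zero]; exact zero_mem _
    · intro x y hx hy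
      rw [map_add]
      exact add_mem hx hy
  have hch : ∀ h : b, ∃ z, z ∈ good (k := k) ∧ π z = h := fun h => hb1 h.2
  choose zz hzz1 hzz2 using hch
  choose d hd1 hd2 hd3 hd4 using hzz1
  let μ : List b → ExteriorAlgebra (RR k) (Fin 3 → RR k) := fun l =>
    match l with
    | [h] => zz h
    | _ => 0
  have hμm : ∀ l, μ l ∈ m2K (k := k) := by
    intro l
    rcases l with _ | ⟨h, _ | ⟨h', t⟩⟩
    · exact zero_mem _
    · exact hd4 h
    · exact zero_mem _
  have hμd : ∀ l, kosD (ph (xx k)) (μ l) = 0 := by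
    intro l
    rcases l with _ | ⟨h, _ | ⟨h', t⟩⟩
    · exact map_zero _
    · exact hd3 h
    · exact map_zero _
  refine ⟨b, d, μ, ⟨hd1, ?_, ?_, ?_⟩⟩
  · intro l hl
    rcases l with _ | ⟨h, _ | ⟨h', t⟩⟩
    · exact absurd rfl hl
    · simpa using hd2 h
    · exact zero_mem _
  · intro z hz
    have hz1 := hcyc z hz
    rw [← hb2] at hz1
    have hsum : ∀ c : b →₀ k, π (c.sum fun h a => algebraMap k (RR k) a • μ [h]) =
        Finsupp.linearCombination k (fun h : b => (h : V)) c := by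
      intro c
      rw [Finsupp.linearCombination_apply, Finsupp.sum, Finsupp.sum, map_sum]
      refine Finset.sum_congr rfl fun h _ => ?_
      rw [map_smul]
      exact congrArg (fun t : V => algebraMap k (RR k) (c h) • t) (hzz2 h)
    have hrange : Submodule.span k b = LinearMap.range
        (Finsupp.linearCombination k (fun h : b => (h : V))) := by
      rw [Finsupp.range_linearCombination, Subtype.range_coe]
    rw [hrange] at hz1
    obtain ⟨c, hc⟩ := hz1
    refine ⟨c, ?_, ?_⟩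
    · apply (Submodule.Quotient.mk_eq_zero _).1
      change π _ = 0
      rw [map_sub, hsum, hc, sub_self]
    · intro c' hc'
      have h1 : π (z - c'.sum fun h a => algebraMap k (RR k) a • μ [h]) = 0 :=
        (Submodule.Quotient.mk_eq_zero _).2 hc'
      rw [map_sub, hsum, ← hc, sub_eq_zero] at h1
      exact (linearIndependent_iff_injective_finsuppLinearCombination.1 hb3 h1).symm
  · intro l _
    change kosD (ph (xx k)) (μ l) = _
    rw [hμd]
    symm
    apply Finset.sum_eq_zero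
    intro j _
    exact m2K_mul (m2K_involute (hμm _)) (hμm _)

end golod2


/-! ### Krull dimension, depth, type and height -/

section rest

variable {k : Type u} [Field k]

/-- evaluation at the origin on the quotient -/
theorem coeff_zero_eq (p : MvPolynomial (Fin 3) k) : coeff 0 p = constantCoeff p := rfl

theorem mem_mm_iff (p : MvPolynomial (Fin 3) k) : mkR p ∈ (mm : Ideal (RR k)) ↔ coeff 0 p = 0 := by
  rw [mm_eq]
  have h1 : II k ≤ idealOfVars (Fin 3) k := II_le.trans (Ideal.pow_le_self (by norm_num))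
  rw [Ideal.mem_map_iff_of_surjective _ Ideal.Quotient.mk_surjective]
  constructor
  · rintro ⟨q, hq, h⟩
    have h2 : q - p ∈ idealOfVars (Fin 3) k := h1 (Ideal.Quotient.eq.1 h)
    have h3 : p ∈ idealOfVars (Fin 3) k := by
      have := Ideal.sub_mem _ hq h2
      simpa using this
    rw [← pow_one (idealOfVars (Fin 3) k), mem_pow_idealOfVars_iff'] at h3
    exact h3 0 (by simp)
  · intro h
    refine ⟨p, ?_, rfl⟩
    rw [← pow_one (idealOfVars (Fin 3) k), mem_pow_idealOfVars_iff']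
    intro m hm
    have : m = 0 := (Finsupp.degree_eq_zero_iff m).1 (by omega)
    rw [this, h]

theorem mm_ne_top : (mm : Ideal (RR k)) ≠ ⊤ := by
  intro h
  have h1 : mkR (1 : MvPolynomial (Fin 3) k) ∈ (mm : Ideal (RR k)) := by rw [h]; trivial
  rw [mem_mm_iff] at h1
  simp at h1

theorem mm_isMaximal : (mm : Ideal (RR k)).IsMaximal := by
  rw [Ideal.isMaximal_iff]
  constructor
  · intro h1
    exact mm_ne_top ((Ideal.eq_top_iff_one _).2 h1)
  · intro J r hJ hr hrJ
    obtain ⟨p, rfl⟩ := exists_lin r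
    rw [mem_mm_iff] at hr
    have h1 : mkR (p - C (coeff 0 p)) ∈ (mm : Ideal (RR k)) := by
      rw [mem_mm_iff]; simp
    have h2 : mkR (C (coeff 0 p)) ∈ J := by
      have := J.sub_mem hrJ (hJ h1)
      rwa [map_sub, sub_sub_cancel] at this
    have h3 := J.mul_mem_left (mkR (C (coeff 0 p)⁻¹)) h2
    rwa [← map_mul, ← C_mul, inv_mul_cancel₀ hr, C_1, map_one] at h3

instance : Nontrivial (RR k) := by
  refine ⟨0, 1, fun h => ?_⟩
  apply mm_ne_top (k := k)
  rw [Ideal.eq_top_iff_one, ← h]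
  exact Ideal.zero_mem _

theorem prime_eq (P : Ideal (RR k)) [hP : P.IsPrime] : P = mm := by
  have h1 : (mm : Ideal (RR k)) ≤ P := by
    have h2 : (mm : Ideal (RR k)) ^ 4 ≤ P := by rw [mm_pow4]; exact bot_le
    exact hP.le_of_pow_le h2
  exact (mm_isMaximal.eq_of_le hP.ne_top h1).symm

theorem krull : ringKrullDim (RR k) = 0 := by
  have : Ring.KrullDimLE 0 (RR k) := by
    rw [Ring.krullDimLE_zero_iff]
    intro P hP
    rw [prime_eq P]
    exact mm_isMaximal
  exact ringKrullDimZero_iff_ringKrullDim_eq_zero.1 this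

end rest


section height

variable {k : Type u} [Field k]

/-- coordinate projections of the polynomial ring -/
noncomputable def f1 : MvPolynomial (Fin 3) k →ₐ[k] MvPolynomial (Fin 3) k :=
  aeval ![0, X 1, X 2]
/-- coordinate projections of the polynomial ring -/
noncomputable def f2 : MvPolynomial (Fin 3) k →ₐ[k] MvPolynomial (Fin 3) k :=
  aeval ![0, 0, X 2]
/-- coordinate projections of the polynomial ring -/
noncomputable def f3 : MvPolynomial (Fin 3) k →ₐ[k] MvPolynomial (Fin 3) k :=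
  aeval ![0, 0, 0]

theorem f21 (p : MvPolynomial (Fin 3) k) : f2 (f1 p) = f2 p := by
  have : (f2 (k := k)).comp f1 = f2 := by
    ext i
    fin_cases i <;> simp [f1, f2]
  exact congrArg (fun f => f p) this

theorem f32 (p : MvPolynomial (Fin 3) k) : f3 (f2 p) = f3 p := by
  have : (f3 (k := k)).comp f2 = f3 := by
    ext i
    fin_cases i <;> simp [f2, f3]
  exact congrArg (fun f => f p) this

theorem height3 : (II k).height = 3 := by
  have hne : II k ≠ ⊤ := by
    intro h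
    have h1 : (1 : MvPolynomial (Fin 3) k) ∈ II k := by rw [h]; trivial
    have h2 := coeff_of_mem h1 (a := 0) (b := 0) (c := 0) (by norm_num)
    have h0 : (0 : Fin 3 →₀ ℕ) = ex 0 0 0 := by simp [ex]
    rw [← h0] at h2
    simp at h2
  apply le_antisymm
  · have h1 := Ideal.height_le_ringKrullDim_of_ne_top hne
    rw [MvPolynomial.ringKrullDim_of_isNoetherianRing, ringKrullDim_eq_zero_of_field] at h1
    simp only [Nat.card_eq_fintype_card, Fintype.card_fin, zero_add] at h1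
    have h2 : ((II k).height : WithBot ℕ∞) ≤ ((3 : ℕ∞) : WithBot ℕ∞) := h1
    exact WithBot.coe_le_coe.1 h2
  · set P1 : Ideal (MvPolynomial (Fin 3) k) := RingHom.ker (f1 (k := k)) with hP1
    set P2 : Ideal (MvPolynomial (Fin 3) k) := RingHom.ker (f2 (k := k)) with hP2
    set P3 : Ideal (MvPolynomial (Fin 3) k) := RingHom.ker (f3 (k := k)) with hP3
    have i1 : P1.IsPrime := RingHom.ker_isPrime _
    have i2 : P2.IsPrime := RingHom.ker_isPrime _
    have i3 : P3.IsPrime := RingHom.ker_isPrime _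
    have l0 : (⊥ : Ideal (MvPolynomial (Fin 3) k)) < P1 := by
      rw [bot_lt_iff_ne_bot]
      intro h
      have h1 : (X 0 : MvPolynomial (Fin 3) k) ∈ P1 := by simp [hP1, RingHom.mem_ker, f1]
      rw [h, Ideal.mem_bot] at h1
      exact X_ne_zero _ h1
    have l1 : P1 < P2 := by
      refine lt_of_le_of_ne (fun p hp => ?_) (fun h => ?_)
      · rw [hP1, RingHom.mem_ker] at hp
        rw [hP2, RingHom.mem_ker]
        have := f21 p
        have h0 : f1 p = 0 := hp
        rw [h0, map_zero] at this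
        exact this.symm
      · have h1 : (X 1 : MvPolynomial (Fin 3) k) ∈ P2 := by simp [hP2, RingHom.mem_ker, f2]
        rw [← h] at h1
        simp [hP1, RingHom.mem_ker, f1] at h1
    have l2 : P2 < P3 := by
      refine lt_of_le_of_ne (fun p hp => ?_) (fun h => ?_)
      · rw [hP2, RingHom.mem_ker] at hp
        rw [hP3, RingHom.mem_ker]
        have := f32 p
        have h0 : f2 p = 0 := hp
        rw [h0, map_zero] at this
        exact this.symm
      · have h1 : (X 2 : MvPolynomial (Fin 3) k) ∈ P3 := by simp [hP3, RingHom.mem_ker, f3]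
        rw [← h] at h1
        simp [hP2, RingHom.mem_ker, f2] at h1
    have g1 := Ideal.height_add_one_le_of_lt_of_isPrime l0
    have g2 := Ideal.height_add_one_le_of_lt_of_isPrime l1
    have g3 := Ideal.height_add_one_le_of_lt_of_isPrime l2
    have g4 : (3 : ℕ∞) ≤ P3.height := by
      calc (3 : ℕ∞) = (⊥ : Ideal (MvPolynomial (Fin 3) k)).height + 1 + 1 + 1 := by
            rw [Ideal.height_bot]; norm_num
        _ ≤ P1.height + 1 + 1 := by gcongr
        _ ≤ P2.height + 1 := by gcongr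
        _ ≤ P3.height := g3
    rw [Ideal.height_eq_inf_minimalPrimes]
    refine le_iInf₂ fun J hJ => ?_
    have hJp : J.IsPrime := hJ.1.1
    have h1 : idealOfVars (Fin 3) k ≤ J := hJp.le_of_pow_le (pow4_le.trans hJ.1.2)
    have h2 : P3 ≤ J := by
      intro p hp
      apply h1
      rw [hP3, RingHom.mem_ker] at hp
      rw [← pow_one (idealOfVars (Fin 3) k), mem_pow_idealOfVars_iff']
      intro m hm
      have hm0 : m = 0 := (Finsupp.degree_eq_zero_iff m).1 (by omega)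
      rw [hm0]
      have h3 : constantCoeff (f3 p) = constantCoeff p := by
        have : (constantCoeff (R := k)).comp (f3 (k := k)).toRingHom = constantCoeff := by
          ext i
          · simp
          · fin_cases i <;> simp [f3]
        exact congrArg (fun f => f p) this
      have h0 : f3 p = 0 := hp
      rw [h0, map_zero] at h3
      exact h3.symm
    exact g4.trans (Ideal.height_mono h2)

end height

section ext

variable {k : Type u} [Field k]

/-- elements of the socle -/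
noncomputable def ss (a b : k) : MvPolynomial (Fin 3) k :=
  C a * monomial (ex 2 1 0) 1 + C b * monomial (ex 1 1 1) 1

theorem ss_mem (a b : k) : ss a b ∈ idealOfVars (Fin 3) k ^ 3 := by
  refine Ideal.add_mem _ (Ideal.mul_mem_left _ _ ?_) (Ideal.mul_mem_left _ _ ?_)
  · rw [monomial_mem_pow_idealOfVars_iff _ _ one_ne_zero, degree_ex]
  · rw [monomial_mem_pow_idealOfVars_iff _ _ one_ne_zero, degree_ex]

theorem ex_ne {a b c a' b' c' : ℕ} (h : ¬ (a = a' ∧ b = b' ∧ c = c')) :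
    ex a b c ≠ ex a' b' c' := fun e => h (ex_inj e)

theorem phiW_ss (a b : k) : phiW k (ss a b) = a := by
  have h1 : ex 2 1 0 ≠ ex 0 2 1 := ex_ne (by omega)
  have h2 : ex 2 1 0 ≠ ex 1 0 2 := ex_ne (by omega)
  have h3 : ex 1 1 1 ≠ ex 2 1 0 := ex_ne (by omega)
  have h4 : ex 1 1 1 ≠ ex 0 2 1 := ex_ne (by omega)
  have h5 : ex 1 1 1 ≠ ex 1 0 2 := ex_ne (by omega)
  simp [phiW_apply, ss, coeff_C_mul, coeff_monomial, h1, h2, h3, h4, h5]

theorem phiV_ss (a b : k) : phiV k (ss a b) = b := by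
  have h3 : ex 2 1 0 ≠ ex 1 1 1 := ex_ne (by omega)
  simp [phiV_apply, ss, coeff_C_mul, coeff_monomial, h3]

theorem sub_ss {p : MvPolynomial (Fin 3) k} (hp : p ∈ idealOfVars (Fin 3) k ^ 3) :
    p - ss (phiW k p) (phiV k p) ∈ II k := by
  refine ⟨Ideal.sub_mem _ hp (ss_mem _ _), ?_, ?_⟩
  · rw [map_sub, phiW_ss, sub_self]
  · rw [map_sub, phiV_ss, sub_self]

/-- the maps from the residue field to the ring -/
noncomputable def TT (a b : k) : (RR k ⧸ Ideal.span (Set.range (var (II k)))) →ₗ[RR k] RR k :=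
  Submodule.liftQ _ (LinearMap.toSpanSingleton (RR k) (RR k) (mkR (ss a b))) (by
    rw [Ideal.span, Submodule.span_le]
    rintro _ ⟨i, rfl⟩
    rw [SetLike.mem_coe, LinearMap.mem_ker, LinearMap.toSpanSingleton_apply, smul_eq_mul]
    exact (soc_iff _).2 (ss_mem a b) i)

theorem TT_mk (a b : k) (r : RR k) :
    TT a b (Ideal.Quotient.mk _ r) = r * mkR (ss a b) := rfl

theorem mk_eq_smul (r : RR k) :
    (Ideal.Quotient.mk (Ideal.span (Set.range (var (II k)))) r) =
      r • (Ideal.Quotient.mk (Ideal.span (Set.range (var (II k)))) 1) := by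
  change Submodule.Quotient.mk r = r • Submodule.Quotient.mk 1
  rw [← Submodule.Quotient.mk_smul, smul_eq_mul, mul_one]

theorem hom_ext' {f g : (RR k ⧸ Ideal.span (Set.range (var (II k)))) →ₗ[RR k] RR k}
    (h : f (Ideal.Quotient.mk _ 1) = g (Ideal.Quotient.mk _ 1)) : f = g := by
  apply LinearMap.ext
  intro y
  obtain ⟨r, rfl⟩ := Ideal.Quotient.mk_surjective y
  rw [mk_eq_smul r, map_smul, map_smul, h]

section generic

variable {A : Type u} [CommRing A] [Algebra k A] (X Y : ModuleCat.{u} A)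
  (T : k → k → (X →ₗ[A] Y)) (h1 : ∀ a b a' b', T (a + a') (b + b') = T a b + T a' b')
  (h2 : ∀ c a b, T (c * a) (c * b) = algebraMap k A c • T a b)

/-- a plane of homomorphisms -/
noncomputable def genPlane : (k × k) →ₗ[k] (X ⟶ Y) where
  toFun c := ModuleCat.ofHom (T c.1 c.2)
  map_add' c c' := by
    apply ModuleCat.hom_ext
    exact h1 _ _ _ _
  map_smul' a c := by
    apply ModuleCat.hom_ext
    refine (h2 a c.1 c.2).trans ?_
    ext x
    rfl

/-- `Ext⁰` is a plane -/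
noncomputable def genExt (hb : Function.Bijective (genPlane X Y T h1 h2)) :
    Ext X Y 0 ≃ₗ[k] (k × k) :=
  (Ext.linearEquiv₀ (R := k)).trans (LinearEquiv.ofBijective _ hb).symm

end generic

theorem TT_add (a b a' b' : k) : TT (a + a') (b + b') = TT a b + TT a' b' := by
  apply hom_ext'
  rw [LinearMap.add_apply, TT_mk, TT_mk, TT_mk, one_mul, one_mul, one_mul, ← map_add]
  congr 1
  simp only [ss, C_add]
  ring

theorem TT_smul (c a b : k) : TT (c * a) (c * b) = algebraMap k (RR k) c • TT a b := by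
  apply hom_ext'
  rw [LinearMap.smul_apply, TT_mk, TT_mk, one_mul, one_mul, alg_eq, smul_eq_mul, ← map_mul]
  congr 1
  simp only [ss, C_mul]
  ring

/-- the residue field -/
noncomputable abbrev Xo (k : Type u) [Field k] : ModuleCat.{u} (RR k) :=
  ModuleCat.of (RR k) (RR k ⧸ Ideal.span (Set.range (var (II k))))

/-- the ring as a module -/
noncomputable abbrev Yo (k : Type u) [Field k] : ModuleCat.{u} (RR k) :=
  ModuleCat.of (RR k) (RR k)

theorem planeMap_bij : Function.Bijective (genPlane (Xo k) (Yo k) TT TT_add TT_smul) := by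
  constructor
  · rw [injective_iff_map_eq_zero]
    intro c hc
    have h1 : TT c.1 c.2 (Ideal.Quotient.mk _ 1) = 0 :=
      congrArg (fun f : Xo k ⟶ Yo k => f.hom (Ideal.Quotient.mk _ 1)) hc
    rw [TT_mk, one_mul] at h1
    have h2 : ss c.1 c.2 ∈ II k := Ideal.Quotient.eq_zero_iff_mem.1 h1
    have h3 := h2.2.1
    have h4 := h2.2.2
    rw [phiW_ss] at h3
    rw [phiV_ss] at h4
    exact Prod.ext h3 h4
  · intro f
    let g : (RR k ⧸ Ideal.span (Set.range (var (II k)))) →ₗ[RR k] RR k := f.hom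
    obtain ⟨p, hp⟩ := exists_lin (g (Ideal.Quotient.mk _ 1))
    have hp3 : p ∈ idealOfVars (Fin 3) k ^ 3 := by
      rw [← soc_iff]
      intro i
      rw [hp]
      have h1 : var (II k) i * g (Ideal.Quotient.mk _ 1) =
          g (Ideal.Quotient.mk _ (var (II k) i)) := by
        rw [mk_eq_smul (var (II k) i), map_smul, smul_eq_mul]
      have h2 : var (II k) i ∈ Ideal.span (Set.range (var (II k))) :=
        Ideal.subset_span ⟨i, rfl⟩
      rw [h1, Ideal.Quotient.eq_zero_iff_mem.2 h2]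
      exact map_zero g
    refine ⟨(phiW k p, phiV k p), ?_⟩
    apply ModuleCat.hom_ext
    change TT (phiW k p) (phiV k p) = g
    apply hom_ext'
    rw [TT_mk, one_mul, ← hp]
    symm
    exact Ideal.Quotient.eq.2 (sub_ss hp3)

/-- `Ext⁰` is a plane -/
noncomputable def extEquiv : ExtK (var (II k)) 0 ≃ₗ[k] (k × k) :=
  genExt (Xo k) (Yo k) TT TT_add TT_smul planeMap_bij

theorem depth_eq : depth (var (II k)) = 0 := by
  rw [depth, Nat.sInf_eq_zero]
  left
  exact (extEquiv (k := k)).toEquiv.nontrivial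

theorem cmType_eq : cmType k (var (II k)) = 2 := by
  rw [cmType, depth_eq, (extEquiv (k := k)).finrank_eq]
  simp

end ext

/-- **Main theorem.** Over every field `k` there is a homogeneous ideal `I ⊆ m²` of `k[x,y,z]`
such that `R = S/I` is Cohen-Macaulay and Golod, `R` has type `2`, and `I` has height `3`. -/
theorem result (k : Type u) [Field k] : ∃ I : Ideal (MvPolynomial (Fin 3) k),
    IsHomog I ∧ I ≤ idealOfVars (Fin 3) k ^ 2 ∧ IsCM (var I) ∧ IsGolod k (var I) ∧
      cmType k (var I) = 2 ∧ I.height = 3 := by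
  refine ⟨II k, isHomog_II, II_le_sq, ?_, golod, cmType_eq, height3⟩
  rw [IsCM, depth_eq, krull]
  rfl

end Pool.Agent.Results.MP_5d828d_al.TypeBelowHeight
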